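import Pool.Agent.Lib.MP_b2bfca_co.KX.Cert8
import Pool.Agent.Lib.MP_b2bfca_co.KX.Cert24
import Pool.Agent.Lib.MP_b2bfca_co.KX.Low8
import Pool.Agent.Lib.MP_b2bfca_co.KX.LeechD
import Pool.Agent.Lib.MP_b2bfca_co.KX.Ek

set_option autoImplicit false

/-!
# The average kissing number of balls of arbitrary radii in dimensions 8 and 24

`edges c r` is the number of tangent pairs of the packing, `E n d` the largest number of edges of
the tangent graph of `n` closed balls of arbitrary radii with pairwise disjoint interiors in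
`ℝ^d`, and `kappa d = sup_{n ≥ 1} E n d / n`.
-/

namespace Pool.Agent.Results.MP_b2bfca_co.ExactDimensions

open Pool.Agent.Lib.MP_b2bfca_co
open Filter Topology

theorem result :
    (kappa 8 = 120 ∧
      (∀ (n : ℕ) (c : Fin n → EuclideanSpace ℝ (Fin 8)) (r : Fin n → ℝ), IsPacking c r →
        edges c r ≤ 120 * n) ∧
      Tendsto (fun n : ℕ => (E n 8 : ℝ) / (n : ℝ)) atTop (𝓝 120)) ∧
    (kappa 24 = 98280 ∧
      (∀ (n : ℕ) (c : Fin n → EuclideanSpace ℝ (Fin 24)) (r : Fin n → ℝ), IsPacking c r →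
        edges c r ≤ 98280 * n) ∧
      Tendsto (fun n : ℕ => (E n 24 : ℝ) / (n : ℝ)) atTop (𝓝 98280)) := by
  have h8 : kappa 8 = 120 := le_antisymm KX.D8.kappa_le KX.kappa8_ge
  have h24 : kappa 24 = 98280 := le_antisymm KX.D24.kappa_le KX.kappa24_ge
  have t8 := tendsto_kappa (d := 8) (by norm_num)
  have t24 := tendsto_kappa (d := 24) (by norm_num)
  rw [h8] at t8
  rw [h24] at t24
  exact ⟨⟨h8, fun n c r h => KX.edges_le_of_kappa (m := 120) (by exact_mod_cast h8) h, t8⟩,
    ⟨h24, fun n c r h => KX.edges_le_of_kappa (m := 98280) (by exact_mod_cast h24) h, t24⟩⟩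

end Pool.Agent.Results.MP_b2bfca_co.ExactDimensions
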