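import Pool.Agent.Lib.MP_b2bfca_co.K3.Final

set_option autoImplicit false

/-!
# A new lower bound for the average kissing number of balls in `ℝ^3`

`E n d` is the largest number of edges of the tangent graph of `n` closed balls of arbitrary
radii with pairwise disjoint interiors in `ℝ^d`, and `kappa d = sup_{n ≥ 1} E n d / n`.
-/

namespace Pool.Agent.Results.MP_b2bfca_co.KissingLowerBound

open Pool.Agent.Lib.MP_b2bfca_co

theorem result :
    (2562 + 51 * Real.sqrt 2) / (402 + 11 * Real.sqrt 2) ≤ kappa 3 ∧
      (63084 / 10000 : ℝ) < kappa 3 :=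
  ⟨K3.kappa3_ge, lt_of_lt_of_le K3.c_gt K3.kappa3_ge⟩

end Pool.Agent.Results.MP_b2bfca_co.KissingLowerBound
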