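import Pool.Agent.Lib.MP_b2bfca_co.Main
import Pool.Agent.Lib.MP_b2bfca_co.Num

set_option autoImplicit false

/-!
# The exponent of the largest average number of tangencies

`E n d` is the largest number of edges of the tangent graph of `n` closed balls of arbitrary
radii with pairwise disjoint interiors in `ℝ^d`, and `kappa d = sup_{n ≥ 1} E n d / n`.
-/

namespace Pool.Agent.Results.MP_b2bfca_co.TangencyExponent

open Pool.Agent.Lib.MP_b2bfca_co
open Filter Topology

theorem result :
    (∀ d : ℕ, 1 ≤ d →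
      Tendsto (fun n : ℕ => (E n d : ℝ) / (n : ℝ)) atTop (𝓝 (kappa d))) ∧
    (∀ k m : ℝ, 0 ≤ m → m < k → m < 1 →
      1 / 2 < 2 * ((k - m) * (k + m + 1)) / ((1 + 2 * k) * Real.sqrt (k * (1 + k))) →
      ∀ ε : ℝ, 0 < ε → ∀ᶠ d : ℕ in atTop, kappa d ≤ Real.exp (d *
        (((1 + k) * Real.log (1 + k) - k * Real.log k)
          - ((1 + m) * Real.log (1 + m) - m * Real.log m) + ε))) ∧
    (∀ᶠ d : ℕ in atTop, kappa d ≤ (2 : ℝ) ^ ((3974 / 10000 : ℝ) * d)) := by
  refine ⟨fun d hd => tendsto_kappa hd, fun k m hm hmk hm1 hs ε hε => ?_, ?_⟩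
  · exact kappa_asym hm hmk hm1 hs hε
  · have h1 := half_lt_lvS
    have h2 := gS_diff_lt
    have h3 : 0 < Real.log 2 := Real.log_pos (by norm_num)
    set δ : ℝ := (3974 / 10000) * Real.log 2 - (gS (857 / 10000) - gS (37 / 10000)) with hδ
    have hδ0 : 0 < δ := by
      rw [hδ]
      linarith
    filter_upwards [kappa_asym (κ := 857 / 10000) (μ := 37 / 10000) (by norm_num) (by norm_num)
      (by norm_num) h1 hδ0] with d hd
    refine hd.trans (le_of_eq ?_)
    rw [Real.rpow_def_of_pos (by norm_num : (0 : ℝ) < 2)]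
    congr 1
    rw [hδ]
    ring

end Pool.Agent.Results.MP_b2bfca_co.TangencyExponent
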