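import Pool.Agent.Lib.MP_b2bfca_co.KX.CertT3
import Pool.Agent.Lib.MP_b2bfca_co.KX.CertT4
import Pool.Agent.Lib.MP_b2bfca_co.KX.CertT5
import Pool.Agent.Lib.MP_b2bfca_co.KX.CertT6
import Pool.Agent.Lib.MP_b2bfca_co.KX.CertT7
import Pool.Agent.Lib.MP_b2bfca_co.KX.CertT9
import Pool.Agent.Lib.MP_b2bfca_co.KX.CertT10
import Pool.Agent.Lib.MP_b2bfca_co.KX.CertT11
import Pool.Agent.Lib.MP_b2bfca_co.KX.CertT12
import Pool.Agent.Lib.MP_b2bfca_co.KX.CertT13
import Pool.Agent.Lib.MP_b2bfca_co.KX.CertT14
import Pool.Agent.Lib.MP_b2bfca_co.KX.CertT15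
import Pool.Agent.Lib.MP_b2bfca_co.KX.CertT16
import Pool.Agent.Lib.MP_b2bfca_co.KX.CertT17
import Pool.Agent.Lib.MP_b2bfca_co.KX.CertT18
import Pool.Agent.Lib.MP_b2bfca_co.KX.CertT19
import Pool.Agent.Lib.MP_b2bfca_co.KX.CertT20
import Pool.Agent.Lib.MP_b2bfca_co.KX.CertT21
import Pool.Agent.Lib.MP_b2bfca_co.KX.CertT22
import Pool.Agent.Lib.MP_b2bfca_co.KX.CertT23
import Pool.Agent.Lib.MP_b2bfca_co.KX.Ek

set_option autoImplicit false

/-!
# Upper bounds for the average kissing number of balls of arbitrary radii, dimensions 3 to 23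

`edges c r` is the number of tangent pairs of the packing, `E n d` the largest number of edges of
the tangent graph of `n` closed balls of arbitrary radii with pairwise disjoint interiors in
`ℝ^d`, and `kappa d = sup_{n ≥ 1} E n d / n`. The average degree of the tangent graph is
`2 * edges c r / n`. (Dimensions 8 and 24: `ExactDimensions`.)
-/

namespace Pool.Agent.Results.MP_b2bfca_co.UpperBoundTable

open Pool.Agent.Lib.MP_b2bfca_co

/-- The bound for the average degree in dimension `d`, `3 ≤ d ≤ 23`, `d ≠ 8`. -/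
def bound : ℕ → ℚ
  | 3 => 13.34
  | 4 => 25.83
  | 5 => 46.74
  | 6 => 82.7
  | 7 => 140.6
  | 9 => 380.2
  | 10 => 596.4
  | 11 => 917
  | 12 => 1417.5
  | 13 => 2234
  | 14 => 3493
  | 15 => 5433
  | 16 => 8315
  | 17 => 12220
  | 18 => 17880
  | 19 => 25905
  | 20 => 37980
  | 21 => 56860
  | 22 => 86560
  | 23 => 128140
  | _ => 0

lemma two_kappa_le (d : ℕ) (h1 : 3 ≤ d) (h2 : d ≤ 23) (h8 : d ≠ 8) :
    2 * kappa d ≤ (bound d : ℝ) := by
  interval_cases d
  · have h := KX.T3.kappa_le
    simp only [bound]
    push_cast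
    linarith
  · have h := KX.T4.kappa_le
    simp only [bound]
    push_cast
    linarith
  · have h := KX.T5.kappa_le
    simp only [bound]
    push_cast
    linarith
  · have h := KX.T6.kappa_le
    simp only [bound]
    push_cast
    linarith
  · have h := KX.T7.kappa_le
    simp only [bound]
    push_cast
    linarith
  · exact absurd rfl h8
  · have h := KX.T9.kappa_le
    simp only [bound]
    push_cast
    linarith
  · have h := KX.T10.kappa_le
    simp only [bound]
    push_cast
    linarith
  · have h := KX.T11.kappa_le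
    simp only [bound]
    push_cast
    linarith
  · have h := KX.T12.kappa_le
    simp only [bound]
    push_cast
    linarith
  · have h := KX.T13.kappa_le
    simp only [bound]
    push_cast
    linarith
  · have h := KX.T14.kappa_le
    simp only [bound]
    push_cast
    linarith
  · have h := KX.T15.kappa_le
    simp only [bound]
    push_cast
    linarith
  · have h := KX.T16.kappa_le
    simp only [bound]
    push_cast
    linarith
  · have h := KX.T17.kappa_le
    simp only [bound]
    push_cast
    linarith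
  · have h := KX.T18.kappa_le
    simp only [bound]
    push_cast
    linarith
  · have h := KX.T19.kappa_le
    simp only [bound]
    push_cast
    linarith
  · have h := KX.T20.kappa_le
    simp only [bound]
    push_cast
    linarith
  · have h := KX.T21.kappa_le
    simp only [bound]
    push_cast
    linarith
  · have h := KX.T22.kappa_le
    simp only [bound]
    push_cast
    linarith
  · have h := KX.T23.kappa_le
    simp only [bound]
    push_cast
    linarith

theorem result (d : ℕ) (h1 : 3 ≤ d) (h2 : d ≤ 23) (h8 : d ≠ 8) :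
    2 * kappa d ≤ (bound d : ℝ) ∧
    ∀ (n : ℕ) (c : Fin n → EuclideanSpace ℝ (Fin d)) (r : Fin n → ℝ), IsPacking c r →
      (2 * edges c r : ℝ) ≤ bound d * n := by
  have h3 := two_kappa_le d h1 h2 h8
  refine ⟨h3, fun n c r h => ?_⟩
  have h4 := KX.edges_le_kappa h
  have h5 := mul_le_mul_of_nonneg_left h3 (Nat.cast_nonneg (α := ℝ) n)
  linarith

end Pool.Agent.Results.MP_b2bfca_co.UpperBoundTable
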